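import Pool.Agent.Helper57.LJ.Junta

set_option autoImplicit false

/-! The fourth moment over the multiples of `1 / b ^ K`. -/

namespace Pool.Agent.Helper37.ON

open Finset
open Pool.Agent.Helper57.PC (Fr ch Wn e hat)
open Pool.Agent.Helper57.LJ (dig U)

lemma sep (x : ℕ) (hx : 0 < x) {j j' : ℕ} (hj : j < x) (hj' : j' < x) (hne : j ≠ j') :
    1 / (x : ℝ) ≤ ‖j • ((((1 : ℝ) / (x : ℝ) : ℝ)) : Fr) - j' • ((((1 : ℝ) / (x : ℝ) : ℝ)) : Fr)‖ := by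
  have hx0 : (0 : ℝ) < x := by exact_mod_cast hx
  have e1 : j • ((((1 : ℝ) / (x : ℝ) : ℝ)) : Fr) - j' • ((((1 : ℝ) / (x : ℝ) : ℝ)) : Fr) =
      ((((j : ℝ) - j') / x : ℝ) : Fr) := by
    rw [← AddCircle.coe_nsmul, ← AddCircle.coe_nsmul, ← AddCircle.coe_sub]
    congr 1
    rw [nsmul_eq_mul, nsmul_eq_mul]
    ring
  rw [e1]
  have h2 : ‖((((j : ℝ) - j') / x : ℝ) : Fr)‖ =
      |((j : ℝ) - j') / x - round (((j : ℝ) - j') / x)| := UnitAddCircle.norm_eq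
  rw [h2]
  set r : ℤ := round (((j : ℝ) - j') / x) with hr
  have e3 : ((j : ℝ) - j') / x - r = (((j : ℤ) - j' - r * x : ℤ) : ℝ) / x := by
    push_cast
    field_simp
  rw [e3, abs_div, abs_of_pos hx0]
  refine div_le_div_of_nonneg_right ?_ hx0.le
  have h4 : (j : ℤ) - j' - r * x ≠ 0 := by
    intro h
    have h5 : (x : ℤ) ∣ (j : ℤ) - j' := ⟨r, by linarith⟩
    have h6 : |(j : ℤ) - j'| < x := by
      rw [abs_lt]
      constructor <;> omega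
    have h7 := Int.eq_zero_of_abs_lt_dvd h5 h6
    exact hne (by omega)
  have h8 : (1 : ℤ) ≤ |(j : ℤ) - j' - r * x| := Int.one_le_abs h4
  exact_mod_cast h8

theorem sum_fourth (b K : ℕ) (hb : 2 ≤ b) (S : Finset ℕ) (hS : S ⊆ range (b ^ K)) :
    ∑ j ∈ range (b ^ K), ‖hat S (j • ((((1 : ℝ) / ((b ^ K : ℕ) : ℝ) : ℝ)) : Fr))‖ ^ 4 ≤
      53 * (b : ℝ) ^ K * Pool.Agent.Helper57.PC.En S (b ^ K) := by
  classical
  have hx : 0 < b ^ K := by positivity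
  have hx0 : (0 : ℝ) < ((b ^ K : ℕ) : ℝ) := by exact_mod_cast hx
  have hinj : Set.InjOn (fun j : ℕ => j • ((((1 : ℝ) / ((b ^ K : ℕ) : ℝ) : ℝ)) : Fr))
      (range (b ^ K) : Set ℕ) := by
    intro j hj j' hj' h
    by_contra hne
    have h1 := sep (b ^ K) hx (mem_range.1 hj) (mem_range.1 hj') hne
    have h2 : j • ((((1 : ℝ) / ((b ^ K : ℕ) : ℝ) : ℝ)) : Fr) =
      j' • ((((1 : ℝ) / ((b ^ K : ℕ) : ℝ) : ℝ)) : Fr) := h
    rw [h2, sub_self, norm_zero] at h1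
    exact absurd h1 (not_le.2 (by positivity))
  have h := Pool.Agent.Helper57.PC.sum_hat_le_sep S hx hS
    ((range (b ^ K)).image fun j : ℕ => j • ((((1 : ℝ) / ((b ^ K : ℕ) : ℝ) : ℝ)) : Fr))
    (by
      intro θ hθ θ' hθ' hne
      obtain ⟨j, hj, rfl⟩ := Finset.mem_image.1 hθ
      obtain ⟨j', hj', rfl⟩ := Finset.mem_image.1 hθ'
      exact sep (b ^ K) hx (mem_range.1 hj) (mem_range.1 hj') fun h => hne (by rw [h]))
  rw [Finset.sum_image hinj] at h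
  have e : (((b ^ K : ℕ)) : ℝ) = (b : ℝ) ^ K := by push_cast; rfl
  rw [← e]
  exact h

end Pool.Agent.Helper37.ON
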